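import Pool.Agent.Helper95.CF.Stmts

/-!
# Hydrogen systems (all nuclear charges one), well separated nuclei: statements of the rows
-/

set_option autoImplicit false

namespace Pool.Agent.Helper95.HS

open MeasureTheory Filter Pool.Agent.Helper95.PW Pool.Agent.Helper95.LN Pool.Agent.Helper95.CF

/-- interface (Helper50): sharp local Hardy inequality -/
def ST_HLS : Prop := ∃ C : ℝ, 0 < C ∧ ∀ (d : ℝ) (n M : ℕ) (X : Fin M → R3) (u : Wf n), 1 ≤ d →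
  Sep X d → Sm u → one (near2 X d) u ≤ 4 * kin u + C / d * (kin u + n * PW.sq u)

/-- interface (Helper50): energy of the trial state -/
def ST_EBH : Prop := ∀ δ : ℝ, 0 < δ → ∃ d : ℝ, 1 ≤ d ∧ ∀ (n M : ℕ) (X : Fin M → R3)
  (Z : Fin M → ℝ) (E : ℝ), Nuc n Z → (∀ j, Z j = 1) → Sep X d → LowM n X Z E →
  E + nucR X Z ≤ -((1 / 4 - δ) * n)

/-- interface (Helper50): lower bound of the kinetic energy -/
def ST_KLB : Prop := ∀ δ : ℝ, 0 < δ → ∃ d : ℝ, 1 ≤ d ∧ ∀ (n M : ℕ) (X : Fin M → R3)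
  (Z : Fin M → ℝ) (E : ℝ) (φ : Wf n) (G : Fin n → Fin 3 → Wf n), 1 ≤ n → Nuc n Z →
  (∀ j, Z j = 1) → Sep X d → GroundM n X Z E φ G → (1 / 4 - δ) * n ≤ kinG G

/-- row SSR (CSQM STB AIDM CIDM BINJ ERR INTM MORM; see Helper40/PN/INLJ.lean): the sum rule with
the sharp constant. With `p m = sq (Pg (g m) u)` and `b m = QM - E sq` of `Pg (g m) u`:
`4 (p m)^2 ≤ N * b m + error`, `(∑ p)^2 ≤ 3 ∑ p^2`, `∑ b m ≤ B1 / 2 + ...` (BINJ). -/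
def ST_SSR : Prop := ∃ C : ℝ, 0 < C ∧ ∀ (n M : ℕ) (X : Fin M → R3) (Z : Fin M → ℝ) (E : ℝ)
  (g : Fin 3 → R3 → ℝ) (K R B : ℝ) (S : Set R3), LowM n X Z E → (∀ j, 0 ≤ Z j) → 1 ≤ K →
  (∀ m, Scale (g m) K R) → 0 < R → IsClosed S → (∀ m y, y ∉ S → ∀ i, pd i (g m) y = 0) →
  (∀ m j y, nr (y - X j) < R → ∀ i, pd i (g m) y = if i = m then 1 else 0) →
  ∃ C' : ℝ, 0 < C' ∧ ∀ u : Wf n, Sm u → Anti u → PW.sq u ≤ 2 →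
  kin u ≤ B → pair u ≤ B → one (pot X Z) u ≤ B → dd u ≤ B → resM X Z E u ≤ 1 →
  ∀ B1 s0 N : ℝ, 0 ≤ B1 → 0 < s0 → 0 ≤ N → N ≤ B →
  (∀ s : ℝ, 0 < s → s ≤ s0 → ∑ j, Z j * one (fun y => mor s (y - X j)) u ≤ B1) →
  (∀ m, one (grd (g m)) u ≤ N) →
  (∑ m, PW.sq (fun s => Pg (g m) (u s))) ^ 2 ≤ 3 / 4 * N * (B1 / 2 +
    C * K ^ 2 * ((kin u + pair u + one (pot X Z) u) / R ^ 2 + one (ind S) u / R ^ 4)) +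
    C' * Real.sqrt (resM X Z E u)

/-- row LGA -/
def ST_LGA : Prop := ∀ (n : ℕ) (φ : Wf n) (u : ℕ → Wf n) (w : R3 → ℝ) (B : ℝ), Continuous w →
  (∀ y, |w y| ≤ B) → (∀ s, MemLp (φ s) 2) → (∀ j, Sm (u j)) →
  Tendsto (fun j => PW.sq (fun s x => u j s x - φ s x)) atTop (nhds 0) →
  Tendsto (fun j => one w (u j)) atTop (nhds (one w φ))

/-- row LGB (CUT): dominated convergence -/
def ST_LGB : Prop := ∀ (n : ℕ) (φ : Wf n) (m : Fin 3), (∀ s, MemLp (φ s) 2) →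
  Tendsto (fun L : ℕ => one (grd (gm m ((L : ℝ) + 1))) φ) atTop (nhds (n * PW.sq φ))

/-- row NBX (GRD PHA PHB PHC DEX; as Helper47/LN/NB.lean with the bump `F_i` scaled by `d`:
`∫ |∇F|^2 ≤ C d`) -/
def ST_NBX : Prop := ∃ C : ℝ, 0 < C ∧ ∀ (d : ℝ) (n M : ℕ) (X : Fin M → R3) (Z : Fin M → ℝ)
  (x : Cf n), 1 ≤ d → Sep X d → (∀ j, Z j = 1) →
  ∑ i, cnt X (3 / 2 * d) x i ^ 2 ≤ C * (M + d * Dn (d / 8) X Z x)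

/-- row FFX (MVP PHA PHB PHC NBX DEX; as Helper76/LN/FF.lean): `∫ et (d/4)^2 ≤ C / d^3`,
`|∇ ph (d/8)| ≤ C / d^2` -/
def ST_FFX : Prop := ∃ C : ℝ, 0 < C ∧ ∀ (d : ℝ) (n M : ℕ) (X : Fin M → R3) (Z : Fin M → ℝ)
  (x : Cf n), 1 ≤ d → Sep X d → (∀ j, Z j = 1) →
  ∃ e : Fin M → ℝ, (∀ i m y, nr (y - X i) ≤ d → |farE d X Z x i m y| ≤ e i) ∧
  ∑ i, e i ^ 2 ≤ C * (M / d ^ 4 + Dn (d / 8) X Z x / d ^ 3)

/-- row VIRX (NBX FFX KK; as Helper53/LN/VIR.lean, the own nucleus with the sharp constant):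
`A ∑ cnt_i e_i ≤ A (∑ cnt_i^2 / d^2 + d^2 ∑ e_i^2)`, pairs in one ball `≥ -(A / d) / (2 r)` -/
def ST_VIRX : Prop := ∃ C : ℝ, 0 < C ∧ ∀ (d A : ℝ) (n M : ℕ) (X : Fin M → R3) (Z : Fin M → ℝ)
  (g : R3 → ℝ) (x : Cf n), 1 ≤ d → 1 ≤ A → Sep X d → Nuc n Z → (∀ j, Z j = 1) →
  ContDiff ℝ (⊤ : ℕ∞) g →
  (∀ i y, (∀ j, d ≤ nr (y - X j)) → pd i g y = 0) → (∀ i y, |pd i g y| ≤ A) →
  (∀ (y : R3) (ξ : Fin 3 → ℝ),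
    -(A / d * ∑ i, ξ i ^ 2) ≤ ∑ i, ∑ l, pd i (pd l g) y * ξ i * ξ l) →
  (∀ j y, nr (y - X j) < 7 / 10 * d → ∑ i, pd i g y * (y i - X j i) ≤ nr (y - X j)) →
  Dist X x →
  -(1 / 2 * (∑ k, near2 X d (x k)) +
    C * A / d * (n + Dn (d / 8) X Z x + Rem (d / 8) x)) ≤ Vir X Z g x

/-- properties of the Morawetz function -/
structure MorD {M : ℕ} (X : Fin M → R3) (A d s : ℝ) (g : R3 → ℝ) : Prop where
  sm : ContDiff ℝ (⊤ : ℕ∞) g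
  cs : HasCompactSupport g
  outd : ∀ i y, (∀ j, d ≤ nr (y - X j)) → pd i g y = 0
  d1 : ∀ i y, |pd i g y| ≤ A
  lp : ∀ y, (∀ j, nr (y - X j) ≠ 0) → |lap g y| ≤ A * near1 X d y
  hs : ∀ (y : R3) (ξ : Fin 3 → ℝ),
    -(A / d * ∑ i, ξ i ^ 2) ≤ ∑ i, ∑ l, pd i (pd l g) y * ξ i * ξ l
  inn : ∀ j y, nr (y - X j) < 7 / 10 * d → ∑ i, pd i g y * (y i - X j i) ≤ nr (y - X j)
  bi : ∀ y, ∑ j, mor s (y - X j) ≤ -(1 / 2) * lap (lap g) y + A / d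

/-- row MGY (MGB PK4 INN2): `mg d s y = d * mg 1 (s/d) (y/d)`, MGB at `d = 1`; for the sum see
Helper74/PN/MGS.lean and Helper99/LN/MGX.lean -/
def ST_MGY : Prop := ∃ A : ℝ, 1 ≤ A ∧ ∀ (M : ℕ) (X : Fin M → R3) (d s : ℝ), 1 ≤ d →
  Sep X d → 0 < s → s ≤ d → MorD X A d s (mG X d s)

/-- row MLH (MGY KID VID VIRX ES1X KK AED HLS PGB PAN STB INTM; see Helper14/LN/MLL.lean) -/
def ST_MLH : Prop := ∃ C : ℝ, 0 < C ∧ ∀ (d : ℝ) (n M : ℕ) (X : Fin M → R3) (Z : Fin M → ℝ)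
  (E B0 : ℝ), 1 ≤ d → 1 ≤ M → 1 ≤ n → Sep X d → Nuc n Z → (∀ j, Z j = 1) →
  ∃ C' : ℝ, 0 < C' ∧ ∀ u : Wf n, Sm u → PW.sq u ≤ 2 → kin u ≤ B0 → ∀ s : ℝ, 0 < s → s ≤ 1 →
  ∑ j, Z j * one (fun y => mor s (y - X j)) u ≤ 4 * kin u +
    C / d * (QM X Z u - kin u + nucR X Z * PW.sq u + C * (kin u + n)) +
    C' * Real.sqrt (resM X Z E u)

/-- row HFIN (SSR MLH KLB EBH LGA LGB POTB LIMG CUT APXM LMTM QHM INTM; see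
Helper39/LN/MTL.lean): `mom^2 ≤ 3/8 n (4 T + C (T + n) / d)`, `n ≤ T / (1/4 - δ)` -/
def ST_HFIN : Prop := ∀ θ : ℝ, 0 < θ → 6 < θ ^ 2 → ∃ d : ℝ, 1 ≤ d ∧ ∀ (n M : ℕ)
  (X : Fin M → R3) (Z : Fin M → ℝ) (E : ℝ) (φ : Wf n) (G : Fin n → Fin 3 → Wf n), 1 ≤ n →
  1 ≤ M → Nuc n Z → (∀ j, Z j = 1) → Sep X d → GroundM n X Z E φ G → mom G ≤ θ * kinG G

end Pool.Agent.Helper95.HS
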