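import Pool.Agent.Helper95.HS.Stmts
import Pool.Agent.Helper95.PM.Mol

set_option autoImplicit false

namespace Pool.Agent.Helper95.HS

open Pool.Agent.Helper95.PW

theorem hydrogen_of (hI : ST_INTM) (hF : ST_HFIN) (θ : ℝ) (h0 : 0 < θ) (h6 : 6 < θ ^ 2) :
    ∃ d : ℝ, 0 < d ∧ ∀ (n M : ℕ)
    (X : Fin M → R3) (Z : Fin M → ℕ) (E : ℝ) (φ : Wf n) (G : Fin n → Fin 3 → Wf n), 1 ≤ M →
    MolGround n X Z E φ G → (∀ j, Z j = 1) → (∀ i j, i ≠ j → d ≤ nr (X i - X j)) →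
    mom G ≤ θ * kinG G := by
  obtain ⟨d, hd, h1⟩ := hF θ h0 h6
  refine ⟨4 * d, by linarith, ?_⟩
  intro n M X Z E φ G hM h hZ hX
  have hn : 1 ≤ n := by
    rw [← h.neutral]
    have h0 : Z ⟨0, hM⟩ ≤ ∑ j, Z j := Finset.single_le_sum (fun _ _ => Nat.zero_le _)
      (Finset.mem_univ _)
    exact (h.charge _).trans h0
  have hS : Sep X d := fun i j hij => hX i j hij
  exact h1 n M X (fun j => (Z j : ℝ)) (E - nuc X Z) φ G hn hM (mol_nuc h)
    (fun j => by rw [hZ j]; simp) hS (mol_ground hI h)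

end Pool.Agent.Helper95.HS
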